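import Pool.Agent.R132.SliceRank

set_option autoImplicit false

/-!
# Bounded subspaces containing all minimal slice rank decompositions

The tensor `T` is viewed as a multilinear form. A family of subspaces `A_j` carries a slice rank
decomposition of `T` if and only if the form is zero on the product of the annihilators of `A_j`.
The theorem follows from `Pool.Agent.R132.SliceRank.exists_le`.
-/

namespace Pool.Agent.Results.MP_f1e34e_co.BoundedSpans

open Finset Module

universe u

/-- `a`, `b` (with `r j` terms for the slot `j`) is a slice rank decomposition of the tensor `T` of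
order `d`. -/
def IsDecomp {F : Type u} [Field F] {d : ℕ} {n : Fin d → ℕ} (T : (∀ j, Fin (n j)) → F)
    (r : Fin d → ℕ) (a : ∀ j, Fin (r j) → Fin (n j) → F)
    (b : ∀ j, Fin (r j) → (∀ l : {l // l ≠ j}, Fin (n l)) → F) : Prop :=
  ∀ x, T x = ∑ j, ∑ i, a j i (x j) * b j i (fun l => x l)

/-- the slice rank of `T` is `k` -/
def HasSliceRank {F : Type u} [Field F] {d : ℕ} {n : Fin d → ℕ} (T : (∀ j, Fin (n j)) → F)
    (k : ℕ) : Prop :=
  IsLeast {m | ∃ r a b, IsDecomp T r a b ∧ ∑ j, r j = m} k

section

variable {F : Type u} [Field F] {d : ℕ} {n : Fin d → ℕ}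

/-- the multilinear form of `T` -/
noncomputable def form (T : (∀ j, Fin (n j)) → F) :
    MultilinearMap F (fun j => Fin (n j) → F) F :=
  ∑ x, T x • (MultilinearMap.mkPiAlgebra F (Fin d) F).compLinearMap
    (fun j => LinearMap.proj (x j))

lemma form_apply (T : (∀ j, Fin (n j)) → F) (y : ∀ j, Fin (n j) → F) :
    form T y = ∑ x, T x * ∏ j, y j (x j) := by
  simp [form]

lemma form_single (T : (∀ j, Fin (n j)) → F) (x : ∀ j, Fin (n j)) :
    form T (fun j => Pi.single (x j) 1) = T x := by
  rw [form_apply, Finset.sum_eq_single x]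
  · simp
  · intro z _ hz
    obtain ⟨j, hj⟩ := Function.ne_iff.1 hz
    rw [prod_eq_zero (mem_univ j), mul_zero]
    simp [hj]
  · intro h
    exact absurd (mem_univ _) h

lemma form_vanish {T : (∀ j, Fin (n j)) → F} {r : Fin d → ℕ}
    {a : ∀ j, Fin (r j) → Fin (n j) → F}
    {b : ∀ j, Fin (r j) → (∀ l : {l // l ≠ j}, Fin (n l)) → F} (h : IsDecomp T r a b)
    (y : ∀ j, Fin (n j) → F) (hy : ∀ j i, ∑ t, a j i t * y j t = 0) : form T y = 0 := by
  rw [form_apply]
  have h1 : ∀ x, T x * ∏ j, y j (x j) =
      ∑ j, ∑ i, a j i (x j) * b j i (fun l => x l) * ∏ l, y l (x l) := by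
    intro x
    rw [h x, sum_mul]
    exact sum_congr rfl fun j _ => by rw [sum_mul]
  rw [sum_congr rfl fun x _ => h1 x, sum_comm]
  refine sum_eq_zero fun j _ => ?_
  rw [sum_comm]
  refine sum_eq_zero fun i _ => ?_
  rw [Fintype.sum_equiv (Equiv.piSplitAt j (fun l => Fin (n l))) _
    (fun p : Fin (n j) × (∀ l : {l // l ≠ j}, Fin (n l)) =>
      a j i p.1 * b j i p.2 * (y j p.1 * ∏ l : {l // l ≠ j}, y l (p.2 l)))]
  · rw [Fintype.sum_prod_type_right]
    refine sum_eq_zero fun v _ => ?_
    have h2 : ∀ t, a j i t * b j i v * (y j t * ∏ l : {l // l ≠ j}, y l (v l)) =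
        (a j i t * y j t) * (b j i v * ∏ l : {l // l ≠ j}, y l (v l)) := by
      intro t; ring
    rw [sum_congr rfl fun t _ => h2 t, ← sum_mul, hy, zero_mul]
  · intro x
    simp only [Equiv.piSplitAt_apply]
    rw [Fintype.prod_eq_mul_prod_subtype_ne (fun l => y l (x l)) j]

lemma decomp_of_vanish (T : (∀ j, Fin (n j)) → F) (U : ∀ j, Submodule F (Fin (n j) → F))
    (hU : ∀ u : ∀ j, Fin (n j) → F, (∀ j, u j ∈ U j) → form T u = 0) :
    ∃ a b, IsDecomp T (fun j => finrank F ((Fin (n j) → F) ⧸ U j)) a b := by
  classical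
  have hg := fun j => Pool.Agent.R132.SliceRank.gens (U j)
  choose φ ψ hφ using hg
  let c : Finset (Fin d) → Option (Fin d) := fun s =>
    if h : s.Nonempty then some h.choose else none
  have hc1 : ∀ s, c s = none → s = ∅ := by
    intro s hs
    by_contra hne
    have h : s.Nonempty := nonempty_iff_ne_empty.2 hne
    simp [c, h] at hs
  have hc2 : ∀ s j, c s = some j → j ∈ s := by
    intro s j hs
    by_cases h : s.Nonempty
    · simp only [c, h, dif_pos] at hs
      rw [← Option.some.inj hs]
      exact h.choose_spec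
    · simp [c, h] at hs
  -- the extension of a point without its coordinate `j`
  let E : ∀ j, (∀ l : {l // l ≠ j}, Fin (n l)) → ∀ l, Fin (n l) → F := fun j v l =>
    if h : l ≠ j then Pi.single (v ⟨l, h⟩) 1 else 0
  let Z : (∀ l, Fin (n l) → F) → ∀ l, Fin (n l) → F := fun y l => ∑ i, ψ l i (y l) • φ l i
  refine ⟨fun j i t => ψ j i (Pi.single t 1), fun j i v =>
    ∑ s with c s = some j, form T
      (Function.update (s.piecewise (Z (E j v)) (E j v - Z (E j v))) j (φ j i)), fun x => ?_⟩
  set y : ∀ l, Fin (n l) → F := fun l => Pi.single (x l) 1 with hy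
  have hE : ∀ j l, l ≠ j → E j (fun l => x l) l = y l := by
    intro j l hl
    simp [E, hl, hy]
  have hZ : ∀ j l, l ≠ j → Z (E j (fun l => x l)) l = Z y l := by
    intro j l hl
    simp only [Z, hE j l hl]
  have hup : ∀ (s : Finset (Fin d)) j i, Function.update (s.piecewise (Z (E j (fun l => x l)))
      (E j (fun l => x l) - Z (E j (fun l => x l)))) j (φ j i) =
      Function.update (s.piecewise (Z y) (y - Z y)) j (φ j i) := by
    intro s j i
    funext l
    by_cases hl : l = j
    · subst hl
      simp
    · rw [Function.update_of_ne hl, Function.update_of_ne hl]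
      by_cases hs : l ∈ s
      · simp only [hs, piecewise_eq_of_mem, hZ j l hl]
      · simp only [hs, not_false_eq_true, piecewise_eq_of_notMem, Pi.sub_apply, hZ j l hl,
          hE j l hl]
  rw [← form_single T x, ← hy]
  have h1 : form T y = ∑ s : Finset (Fin d), form T (s.piecewise (Z y) (y - Z y)) := by
    rw [← MultilinearMap.map_add_univ, add_sub_cancel]
  rw [h1, ← Finset.sum_fiberwise univ c, Fintype.sum_option]
  have h2 : ∑ s with c s = none, form T (s.piecewise (Z y) (y - Z y)) = 0 := by
    refine sum_eq_zero fun s hs => ?_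
    rw [hc1 s (mem_filter.1 hs).2, piecewise_empty]
    exact hU _ fun j => hφ j (y j)
  rw [h2, zero_add]
  refine sum_congr rfl fun j _ => ?_
  have h3 : ∀ s ∈ univ.filter (fun s => c s = some j), form T (s.piecewise (Z y) (y - Z y)) =
      ∑ i, ψ j i (Pi.single (x j) 1) *
        form T (Function.update (s.piecewise (Z y) (y - Z y)) j (φ j i)) := by
    intro s hs
    have hj := hc2 s j (mem_filter.1 hs).2
    have h4 : s.piecewise (Z y) (y - Z y) =
        Function.update (s.piecewise (Z y) (y - Z y)) j (∑ i, ψ j i (y j) • φ j i) := by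
      symm
      rw [Function.update_eq_self_iff]
      simp [hj, Z]
    conv_lhs => rw [h4]
    rw [MultilinearMap.map_update_sum]
    refine sum_congr rfl fun i _ => ?_
    rw [MultilinearMap.map_update_smul, smul_eq_mul]
  rw [sum_congr rfl h3, sum_comm]
  refine sum_congr rfl fun i _ => ?_
  rw [← mul_sum]
  congr 1
  exact sum_congr rfl fun s _ => by rw [hup]

/-- the standard pairing -/
noncomputable def dotL (m : ℕ) : (Fin m → F) →ₗ[F] (Fin m → F) →ₗ[F] F :=
  LinearMap.mk₂ F (fun a y => ∑ t, a t * y t)
    (fun a a' y => by simp [add_mul, sum_add_distrib])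
    (fun c a y => by simp [mul_sum, mul_assoc])
    (fun a y y' => by simp [mul_add, sum_add_distrib])
    (fun c a y => by simp [mul_sum, mul_left_comm])

lemma dotL_apply (m : ℕ) (a y : Fin m → F) : dotL m a y = ∑ t, a t * y t := rfl

lemma dotL_inj (m : ℕ) : Function.Injective (dotL (F := F) m) := by
  rw [injective_iff_map_eq_zero]
  intro a ha
  funext t
  have h : dotL m a (Pi.single t 1) = 0 := by rw [ha]; rfl
  rw [dotL_apply] at h
  simpa [Pi.single_apply] using h

end

/-- For all `d` and `k` there is a constant `C`, depending on `d` and `k` only, such that for every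
tensor of order `d` with slice rank `k` over any field there are subspaces of dimension at most `C`
which contain the spans of the one-variable factors of all slice rank decompositions of minimal
length. -/
theorem result : ∃ C : ℕ → ℕ → ℕ, (∀ d k, 1 ≤ k → 1 ≤ C d k) ∧ ∀ (d k : ℕ) (F : Type u) [Field F]
    (n : Fin d → ℕ) (T : (∀ j, Fin (n j)) → F), HasSliceRank T k →
    ∃ A : ∀ j, Submodule F (Fin (n j) → F), (∀ j, Module.finrank F (A j) ≤ C d k) ∧
      ∀ (r : Fin d → ℕ) (a : ∀ j, Fin (r j) → Fin (n j) → F)
        (b : ∀ j, Fin (r j) → (∀ l : {l // l ≠ j}, Fin (n l)) → F),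
        IsDecomp T r a b → ∑ j, r j = k →
          ∀ j, Submodule.span F (Set.range (a j)) ≤ A j := by
  classical
  refine ⟨fun d k => 2 ^ d * Pool.Agent.R132.SliceRank.bnd d k d + 1, fun d k _ => Nat.le_add_left 1 _, ?_⟩
  intro d k F _ n T hT
  obtain ⟨W, hW, h⟩ := Pool.Agent.R132.SliceRank.exists_le (form T) k (by
    intro U hU
    obtain ⟨a, b, hab⟩ := decomp_of_vanish T U hU
    exact hT.2 ⟨_, a, b, hab, rfl⟩)
  rw [Fintype.card_fin] at hW
  refine ⟨fun j => ((W j).dualAnnihilator).comap (dotL (n j)), fun j => ?_, ?_⟩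
  · have h1 := Subspace.finrank_add_finrank_dualAnnihilator_eq (W j)
    have h2 := Submodule.finrank_quotient_add_finrank (W j)
    have h3 := hW j
    have h4 : finrank F (((W j).dualAnnihilator).comap (dotL (n j))) ≤
        finrank F (W j).dualAnnihilator := by
      rw [(Submodule.equivMapOfInjective _ (dotL_inj (n j)) _).finrank_eq]
      exact Submodule.finrank_mono (Submodule.map_comap_le _ _)
    change finrank F (((W j).dualAnnihilator).comap (dotL (n j))) ≤
      2 ^ d * Pool.Agent.R132.SliceRank.bnd d k d + 1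
    omega
  · intro r a b hab hr j
    let U : ∀ j, Submodule F (Fin (n j) → F) := fun j =>
      LinearMap.ker (LinearMap.pi fun i => dotL (n j) (a j i))
    have hU : ∀ j (y : Fin (n j) → F), y ∈ U j ↔ ∀ i, ∑ t, a j i t * y t = 0 := by
      intro j y
      simp only [U, LinearMap.mem_ker]
      rw [funext_iff]
      rfl
    have hadm : Pool.Agent.R132.SliceRank.Adm (form T) k U := by
      refine ⟨fun u hu => form_vanish hab u fun j i => (hU j (u j)).1 (hu j) i, ?_⟩
      rw [← hr]
      refine sum_le_sum fun j _ => ?_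
      rw [(LinearMap.quotKerEquivRange _).finrank_eq]
      refine (Submodule.finrank_le _).trans ?_
      rw [Module.finrank_fin_fun]
    rw [Submodule.span_le]
    rintro _ ⟨i, rfl⟩
    rw [SetLike.mem_coe, Submodule.mem_comap, Submodule.mem_dualAnnihilator]
    intro w hw
    rw [dotL_apply]
    exact (hU j w).1 (h U hadm j hw) i

end Pool.Agent.Results.MP_f1e34e_co.BoundedSpans
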